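import Mathlib

namespace Pool.Agent.Results.MP_1f99fc_al.Coarsest

open Matrix Finset

/-- irreducible complex characters -/
def Irr (G : Type) [Group G] : Set (G → ℂ) :=
  {χ | ∃ V : FDRep ℂ G, CategoryTheory.Simple V ∧ χ = V.character}

/-- supercharacter theories (Diaconis-Isaacs) -/
def SCT (G : Type) [Group G] (X : Set (Set (G → ℂ))) (K : Set (Set G)) : Prop :=
  ∅ ∉ X ∧ (∀ B ∈ X, B ⊆ Irr G) ∧ (∀ χ ∈ Irr G, ∃! B, B ∈ X ∧ χ ∈ B) ∧ Setoid.IsPartition K ∧
    X.ncard = K.ncard ∧ {1} ∈ K ∧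
      ∀ B ∈ X, ∀ C ∈ K, ∀ g ∈ C, ∀ h ∈ C, ∑ᶠ ψ ∈ B, ψ 1 * ψ g = ∑ᶠ ψ ∈ B, ψ 1 * ψ h

variable {n : ℕ} {F : Type} [Field F]

theorem mul_tri {a b c d : Matrix (Fin n) (Fin n) F} (ha : ∀ i j, j ≤ i → a i j = c i j)
    (hb : ∀ i j, j ≤ i → b i j = d i j) (hc : ∀ i j, j < i → c i j = 0)
    (hd : ∀ i j, j < i → d i j = 0) (i j : Fin n) (h : j ≤ i) : (a * b) i j = (c * d) i j := by
  rw [mul_apply, mul_apply]
  refine sum_congr rfl fun k _ => ?_
  rcases lt_or_ge k i with p | p
  · rw [ha i k p.le, hc i k p, zero_mul, zero_mul]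
  rcases lt_or_ge j k with q | q
  · rw [hb k j q.le, hd k j q, mul_zero, mul_zero]
  rw [ha i k (q.trans h), hb k j (h.trans p)]

/-- the upper unitriangular group -/
def U (n : ℕ) (F : Type) [Field F] [Finite F] : Subgroup (Matrix (Fin n) (Fin n) F)ˣ :=
  let S : Submonoid (Matrix (Fin n) (Fin n) F)ˣ :=
    { carrier := {g | ∀ i j, j ≤ i → g.1 i j = if i = j then 1 else 0}
      mul_mem' := fun {a b} ha hb i j h => by
        have := mul_tri (c := 1) (d := 1) ha hb (fun i j h => one_apply_ne' h.ne)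
          (fun i j h => one_apply_ne' h.ne) i j h
        rwa [mul_one] at this
      one_mem' := fun _ _ _ => rfl }
  { S with
    inv_mem' := fun {g} hg => by
      obtain ⟨k, k0, hk⟩ := (isOfFinOrder_of_finite g).exists_pow_eq_one
      have : g⁻¹ = g ^ (k - 1) := by
        rw [eq_comm, ← mul_eq_one_iff_eq_inv, ← pow_succ, Nat.sub_add_cancel k0, hk]
      rw [this]
      exact S.pow_mem hg _ }

/-- strictly upper triangular matrices -/
def N (n : ℕ) (F : Type) [Field F] : Type :=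
  {y : Matrix (Fin n) (Fin n) F // ∀ i j, j ≤ i → y i j = 0}

variable [Finite F]

/-- the element `g - 1` -/
def sub1 (g : U n F) : N n F :=
  ⟨g.1.1 - 1, fun i j h => by rw [Matrix.sub_apply, g.2 i j h, one_apply, sub_self]⟩

/-- two-sided orbit of the functional `y ↦ a * y i j` -/
def orb (i j : Fin n) (a : F) : Set (N n F → F) :=
  {μ | ∃ u v : U n F, ∀ y, μ y = a * (u.1.1 * y.1 * v.1.1) i j}

/-- the orbit sum of a single box -/
noncomputable def box (θ : AddChar F ℂ) (i j : Fin n) (a : F) (g : U n F) : ℂ :=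
  ∑ᶠ μ ∈ orb i j a, θ (μ (sub1 g))

def act (u v : U n F) (y : N n F) : N n F := ⟨u.1.1 * y.1 * v.1.1, fun i j h => by
  have o : ∀ i j : Fin n, j < i → (1 : Matrix (Fin n) (Fin n) F) i j = 0 :=
    fun i j h => one_apply_ne' h.ne
  have := mul_tri (c := 1 * 0) (d := 1) (mul_tri (c := 1) (d := 0) u.2 y.2 o fun _ _ _ => rfl) v.2
    (fun _ _ _ => by simp) o i j h
  simpa using this⟩

theorem act_act (u v u' v' : U n F) (y : N n F) :
    act u v (act u' v' y) = act (u * u') (v' * v) y := Subtype.ext (by simp [act, mul_assoc])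

theorem act_one (y : N n F) : act 1 1 y = y := Subtype.ext (by simp [act])

theorem mk {m : Matrix (Fin n) (Fin n) F} (h : ∀ i j, j ≤ i → m i j = 0) :
    ∃ u : U n F, u.1.1 = 1 + m := by
  have d : (1 + m).det = 1 := by
    rw [det_of_isUpperTriangular (fun i j q => by
      have q : j < i := q
      rw [Matrix.add_apply, h i j q.le, one_apply_ne' q.ne, add_zero])]
    simp [h]
  exact ⟨⟨((isUnit_iff_isUnit_det _).2 (d ▸ isUnit_one)).unit, fun i j q => by
    simp [h i j q, one_apply]⟩, rfl⟩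

open Classical in
noncomputable def G (θ : AddChar F ℂ) (i j : Fin n) (a : F) (y : N n F) : ℂ :=
  letI := Fintype.ofFinite (U n F)
  ∑ u : U n F, ∑ v : U n F, θ (a * (act u v y).1 i j)

theorem G_box (θ : AddChar F ℂ) (i j : Fin n) (a : F) :
    ∃ m : ℂ, ∀ g, G θ i j a (sub1 g) = m * box θ i j a g := by
  classical
  let := Fintype.ofFinite (U n F)
  let Φ : U n F × U n F → N n F → F := fun p y => a * (act p.1 p.2 y).1 i j
  refine ⟨#{p | Φ p = Φ 1}, fun g => ?_⟩
  have e : orb i j a = (univ.image Φ : Finset _) := by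
    ext μ
    simp only [orb, Set.mem_ofPred_eq, coe_image, coe_univ, Set.image_univ, Set.mem_range]
    exact ⟨fun ⟨u, v, h⟩ => ⟨(u, v), (funext h).symm⟩, fun ⟨p, h⟩ => ⟨p.1, p.2, fun y => h ▸ rfl⟩⟩
  rw [box, e, finsum_mem_coe_finset, mul_sum, G, ← Fintype.sum_prod_type']
  refine (sum_comp (fun μ : N n F → F => θ (μ (sub1 g))) Φ).trans (sum_congr rfl fun μ hμ => ?_)
  obtain ⟨q, -, rfl⟩ := mem_image.1 hμ
  rw [nsmul_eq_mul]
  congr 2
  refine card_nbij' (fun p => (p.1 * q.1⁻¹, q.2⁻¹ * p.2)) (fun p => (p.1 * q.1, q.2 * p.2))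
    (fun p hp => ?_) (fun p hp => ?_) (fun p _ => by simp) fun p _ => by simp
  · simp only [coe_filter, mem_univ, true_and, Set.mem_ofPred_eq] at hp ⊢
    funext y
    simpa [Φ, act_act] using congrFun hp (act q.1⁻¹ q.2⁻¹ y)
  · simp only [coe_filter, mem_univ, true_and, Set.mem_ofPred_eq] at hp ⊢
    funext y
    simpa [Φ, act_act] using congrFun hp (act q.1 q.2 y)

theorem G_act (θ : AddChar F ℂ) (i j : Fin n) (a : F) (y : N n F) (u v : U n F) :
    G θ i j a (act u v y) = G θ i j a y := by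
  let := Fintype.ofFinite (U n F)
  simp only [G, act_act]
  refine Fintype.sum_equiv (Equiv.mulRight u) _ _ fun p => ?_
  exact Fintype.sum_equiv (Equiv.mulLeft v) _ _ fun q => rfl

theorem entry (u v : U n F) (i j : Fin n) (z : Matrix (Fin n) (Fin n) F)
    (hz : ∀ k l, i ≤ k → l ≤ j → (k ≠ i ∨ l ≠ j) → z k l = 0) :
    (u.1.1 * z * v.1.1) i j = z i j := by
  have : ∀ l, l ≤ j → (u.1.1 * z) i l = z i l := fun l hl => by
    rw [mul_apply, sum_eq_single i, u.2 i i le_rfl, if_pos rfl, one_mul]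
    · intro k _ hk
      rcases lt_or_gt_of_ne hk with p | p
      · rw [u.2 i k p.le, if_neg hk.symm, zero_mul]
      · rw [hz k l p.le hl (.inl hk), mul_zero]
    · simp
  rw [mul_apply, sum_eq_single j, v.2 j j le_rfl, if_pos rfl, mul_one, this j le_rfl]
  · intro l _ hl
    rcases lt_or_gt_of_ne hl with p | p
    · rw [this l p.le, hz i l le_rfl p.le (.inr hl), zero_mul]
    · rw [v.2 l j p.le, if_neg hl, mul_zero]
  · simp

theorem G_shift (θ : AddChar F ℂ) (i j : Fin n) (a : F) (x y : N n F)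
    (h : ∀ k l, i ≤ k → l ≤ j → (k ≠ i ∨ l ≠ j) → x.1 k l = y.1 k l) :
    G θ i j a x = θ (a * (x.1 i j - y.1 i j)) * G θ i j a y := by
  simp only [G, mul_sum, ← AddChar.map_add_eq_mul]
  refine sum_congr rfl fun u _ => sum_congr rfl fun v _ => congrArg θ ?_
  have := entry u v i j (x.1 - y.1) fun k l p q r => by rw [Matrix.sub_apply, h k l p q r, sub_self]
  rw [mul_sub, sub_mul, Matrix.sub_apply, Matrix.sub_apply] at this
  simp only [act]
  linear_combination a * this

theorem row (v : U n F) (i j : Fin n) (w : Matrix (Fin n) (Fin n) F)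
    (h : ∀ l < j, w i l = 0) : (w * v.1.1) i j = w i j := by
  rw [mul_apply, sum_eq_single j, v.2 j j le_rfl, if_pos rfl, mul_one]
  · intro l _ hl
    rcases lt_or_gt_of_ne hl with p | p
    · rw [h l p, zero_mul]
    · rw [v.2 l j p.le, if_neg hl, mul_zero]
  · simp

theorem G_ne {θ : AddChar F ℂ} (hθ : θ ≠ 1) (i j : Fin n) {a : F} (ha : a ≠ 0) (y : N n F)
    (hA : ∀ r : Fin n → F, (∀ k ≤ i, r k = 0) → (∀ l < j, (r ᵥ* y.1) l = 0) → (r ᵥ* y.1) j = 0)
    (hB : ∀ c : Fin n → F, (∀ l, j ≤ l → c l = 0) → (∀ k, i < k → (y.1 *ᵥ c) k = 0) →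
      (y.1 *ᵥ c) i = 0) : G θ i j a y ≠ 0 := by
  classical
  let := Fintype.ofFinite (U n F)
  obtain ⟨b, hb⟩ := AddChar.ne_one_iff.1 hθ
  obtain ⟨u0, h0⟩ : ∃ u : U n F, ∀ l < j, (u.1.1 * y.1) i l = 0 := by
    let T : Fin n → (Fin n → F) →ₗ[F] F := fun k =>
      ∑ l, (if l < j then y.1 k l else 0) • LinearMap.proj l
    have hT : ∀ k c, T k c = (y.1 *ᵥ fun l => if l < j then c l else 0) k := fun k c => by
      simp only [T, LinearMap.sum_apply, LinearMap.smul_apply, LinearMap.proj_apply, smul_eq_mul,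
        mulVec, dotProduct]
      exact sum_congr rfl fun l _ => by split_ifs <;> simp
    obtain ⟨α, hα⟩ := (Submodule.mem_span_range_iff_exists_fun F).1
      (mem_span_of_iInf_ker_le_ker (L := fun k => if i < k then T k else 0) (K := T i) fun c hc => by
        simp only [Submodule.mem_iInf, LinearMap.mem_ker] at hc ⊢
        rw [hT]
        refine hB _ (fun l hl => if_neg hl.not_gt) fun k hk => ?_
        rw [← hT]; simpa [hk] using hc k)
    obtain ⟨u, hu⟩ := mk (m := of fun p k => if p < k then -α k else 0)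
      fun p k h => if_neg h.not_gt
    refine ⟨u, fun l hl => ?_⟩
    have e : ∀ k, T k (Pi.single l 1) = y.1 k l := fun k => by
      have : (fun p => if p < j then (Pi.single l 1 : Fin n → F) p else 0) = Pi.single l 1 := by
        ext p; split_ifs with q
        · rfl
        · rw [Pi.single_eq_of_ne]; rintro rfl; exact q hl
      rw [hT, this]; simp
    have := LinearMap.congr_fun hα (Pi.single l 1)
    rw [e, LinearMap.sum_apply] at this
    rw [hu, add_mul, one_mul, Matrix.add_apply, ← this, mul_apply, ← sum_add_distrib]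
    refine sum_eq_zero fun k _ => ?_
    by_cases p : i < k <;> simp [p, e]
  have inner : ∀ u : U n F, ∑ v : U n F, θ (a * (act u v y).1 i j) =
      if ∀ l < j, (u.1.1 * y.1) i l = 0 then
        Fintype.card (U n F) * θ (a * (u0.1.1 * y.1) i j) else 0 := fun u => by
    split_ifs with h
    · have : (u.1.1 * y.1) i j = (u0.1.1 * y.1) i j := by
        have e : ∀ l, ((fun k => u.1.1 i k - u0.1.1 i k) ᵥ* y.1) l =
            (u.1.1 * y.1) i l - (u0.1.1 * y.1) i l := fun l => by
          simp [vecMul, dotProduct, mul_apply, sub_mul]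
        rw [← sub_eq_zero, ← e]
        exact hA _ (fun k hk => by rw [u.2 i k hk, u0.2 i k hk, sub_self]) fun l hl => by
          rw [e, h l hl, h0 l hl, sub_self]
      simp [act, row _ i j _ h, this]
    · push Not at h
      obtain ⟨l, hl, hw⟩ := h
      obtain ⟨s, hs⟩ := mk (m := single l j (b / (a * (u.1.1 * y.1) i l))) fun p q h => by
        rw [single_apply, if_neg]; rintro ⟨rfl, rfl⟩; exact h.not_gt hl
      have e : ∑ v : U n F, θ (a * (act u v y).1 i j) =
          θ b * ∑ v : U n F, θ (a * (act u v y).1 i j) := by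
        rw [mul_sum]
        refine (Fintype.sum_equiv (Equiv.mulLeft s) _ _ fun v => ?_).symm
        rw [← AddChar.map_add_eq_mul]
        congr 1
        have : (act u (s * v) y).1 = u.1.1 * y.1 * v.1.1 +
            u.1.1 * y.1 * single l j (b / (a * (u.1.1 * y.1) i l)) * v.1.1 := by
          simp only [act, Subgroup.coe_mul, Units.val_mul, hs]; noncomm_ring
        rw [Equiv.coe_mulLeft, this, Matrix.add_apply, row v i j _ fun p hp => mul_single_apply_of_ne
          _ _ _ _ _ hp.ne _, mul_single_apply_same]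
        simp only [act]
        field_simp
        ring
      by_contra c
      exact hb (mul_right_cancel₀ c (e.symm.trans (one_mul _).symm))
  rw [G, sum_congr rfl fun u _ => inner u, ← sum_filter, sum_const, nsmul_eq_mul]
  refine mul_ne_zero (Nat.cast_ne_zero.2 (card_ne_zero.2 ⟨u0, by simpa using h0⟩))
    (mul_ne_zero (by simp) (θ.val_isUnit _).ne_zero)

theorem step {θ : AddChar F ℂ} (hθ : θ ≠ 1) (i j : Fin n) (x y : N n F)
    (hG : ∀ a ≠ 0, G θ i j a x = G θ i j a y)
    (h : ∀ k l, i ≤ k → l ≤ j → (k ≠ i ∨ l ≠ j) → x.1 k l = y.1 k l) :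
    ∃ u v, (act u v y).1 i j = x.1 i j ∧ ∀ k l : Fin n, (l : ℤ) - k ≤ j - i → (k ≠ i ∨ l ≠ j) →
      (act u v y).1 k l = y.1 k l := by
  by_cases hA : ∀ r : Fin n → F, (∀ k ≤ i, r k = 0) → (∀ l < j, (r ᵥ* y.1) l = 0) →
      (r ᵥ* y.1) j = 0
  · by_cases hB : ∀ c : Fin n → F, (∀ l, j ≤ l → c l = 0) → (∀ k, i < k → (y.1 *ᵥ c) k = 0) →
        (y.1 *ᵥ c) i = 0
    · refine ⟨1, 1, ?_, fun _ _ _ _ => by rw [act_one]⟩
      rw [act_one]
      by_contra c
      have c : x.1 i j - y.1 i j ≠ 0 := sub_ne_zero.2 (Ne.symm c)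
      obtain ⟨b, hb⟩ := AddChar.ne_one_iff.1 hθ
      have b0 : b / (x.1 i j - y.1 i j) ≠ 0 := div_ne_zero (by rintro rfl; simp at hb) c
      have := G_shift θ i j (b / (x.1 i j - y.1 i j)) x y h
      rw [hG _ b0, div_mul_cancel₀ _ c] at this
      exact hb (mul_right_cancel₀ (G_ne hθ i j b0 y hA hB) (this.symm.trans (one_mul _).symm))
    · push Not at hB
      obtain ⟨c, c1, c2, c3⟩ := hB
      set t := (x.1 i j - y.1 i j) / (y.1 *ᵥ c) i with ht
      obtain ⟨v, hv⟩ := mk (m := of fun p q => if q = j then c p * t else 0) fun p q h => by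
        rw [of_apply]; split_ifs with e
        · rw [c1 p (e ▸ h), zero_mul]
        · rfl
      have e : ∀ k l, (act 1 v y).1 k l = y.1 k l + if l = j then (y.1 *ᵥ c) k * t else 0 :=
        fun k l => by
          simp only [act, hv, mul_add, OneMemClass.coe_one, Units.val_one, one_mul, mul_one,
            Matrix.add_apply, mul_apply, of_apply, mulVec, dotProduct, sum_mul]
          split_ifs <;> simp [mul_assoc]
      refine ⟨1, v, by rw [e, if_pos rfl, ht]; field_simp; ring, fun k l p q => ?_⟩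
      rw [e]
      split_ifs with r
      · rw [c2 k (by subst r; omega), zero_mul, add_zero]
      · rw [add_zero]
  · push Not at hA
    obtain ⟨c, c1, c2, c3⟩ := hA
    set t := (x.1 i j - y.1 i j) / (c ᵥ* y.1) j with ht
    obtain ⟨u, hu⟩ := mk (m := of fun p q => if p = i then t * c q else 0) fun p q h => by
      rw [of_apply]; split_ifs with e
      · rw [c1 q (e ▸ h), mul_zero]
      · rfl
    have e : ∀ k l, (act u 1 y).1 k l = y.1 k l + if k = i then t * (c ᵥ* y.1) l else 0 :=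
      fun k l => by
        simp only [act, hu, add_mul, OneMemClass.coe_one, Units.val_one, one_mul, mul_one,
          Matrix.add_apply, mul_apply, of_apply, vecMul, dotProduct, mul_sum]
        split_ifs <;> simp [mul_assoc]
    refine ⟨u, 1, by rw [e, if_pos rfl, ht]; field_simp; ring, fun k l p q => ?_⟩
    rw [e]
    split_ifs with r
    · rw [c2 l (by subst r; omega), mul_zero, add_zero]
    · rw [add_zero]

theorem core {θ : AddChar F ℂ} (hθ : θ ≠ 1) (x y : N n F)
    (hG : ∀ i j, i < j → ∀ a ≠ 0, G θ i j a x = G θ i j a y) (S : Finset (Fin n × Fin n))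
    (hS : ∀ p ∈ S, ∀ q : Fin n × Fin n, (q.2 : ℤ) - q.1 < p.2 - p.1 → q ∈ S) :
    ∃ u v, ∀ p ∈ S, (act u v y).1 p.1 p.2 = x.1 p.1 p.2 := by
  induction S using induction_on_max_value (fun p : Fin n × Fin n => (p.2 : ℤ) - p.1) with
  | empty => exact ⟨1, 1, by simp⟩
  | insert a s ha hm ih =>
    obtain ⟨u, v, h⟩ := ih fun p hp q hq => (mem_insert.1 (hS p (mem_insert_of_mem hp) q hq)).resolve_left
      (by rintro rfl; exact (hm p hp).not_gt hq)
    rcases le_or_gt a.2 a.1 with c | c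
    · refine ⟨u, v, fun p hp => ?_⟩
      rcases mem_insert.1 hp with rfl | hp
      · rw [x.2 _ _ c, (act u v y).2 _ _ c]
      · exact h p hp
    obtain ⟨u', v', h1, h2⟩ := step hθ a.1 a.2 x (act u v y)
      (fun b hb => by rw [G_act, hG _ _ c b hb]) fun k l p q r =>
        (h (k, l) ((mem_insert.1 (hS a (mem_insert_self _ _) (k, l) (by dsimp only; omega))).resolve_left
          (by rintro rfl; simp at r))).symm
    refine ⟨u' * u, v * v', fun p hp => ?_⟩
    rw [← act_act]
    rcases mem_insert.1 hp with rfl | hp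
    · exact h1
    · rw [h2 _ _ (hm p hp) (by
        by_contra c; push Not at c; exact ha (Prod.ext c.1 c.2 ▸ hp)), h p hp]

theorem result : ∀ (n : ℕ) (F : Type) [Field F] [Finite F] (θ : AddChar F ℂ), θ ≠ 1 →
    ∀ (X : Set (Set (U n F → ℂ))) (K : Set (Set (U n F))), SCT (U n F) X K →
      (∀ i j : Fin n, i < j → ∀ a : F, a ≠ 0 →
        ∃ c : ℝ, 0 < c ∧ {fun g => c * box θ i j a g} ∈ X) →
      ∀ C ∈ K, ∀ g ∈ C, ∀ h ∈ C, ∃ u v : U n F, g.1.1 - 1 = u.1.1 * (h.1.1 - 1) * v.1.1 := by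
  intro n F _ _ θ hθ X K hK hX C hC g hg h hh
  obtain ⟨u, v, e⟩ := core hθ (sub1 g) (sub1 h) (fun i j hij a ha => by
    obtain ⟨c, c0, hc⟩ := hX i j hij a ha
    obtain ⟨m, hm⟩ := G_box θ i j a
    have e := hK.2.2.2.2.2.2 _ hc C hC g hg h hh
    rw [finsum_mem_singleton, finsum_mem_singleton] at e
    have b1 : box θ i j a 1 ≠ 0 := fun z => by
      have := hm 1
      rw [z, mul_zero] at this
      simp [G, act, sub1] at this
    have c1 : (c : ℂ) ≠ 0 := by exact_mod_cast c0.ne'
    rw [hm, hm, mul_left_cancel₀ c1 (mul_left_cancel₀ (mul_ne_zero c1 b1) e)]) univ (by simp)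
  exact ⟨u, v, by ext i j; exact (e (i, j) (mem_univ _)).symm⟩

end Pool.Agent.Results.MP_1f99fc_al.Coarsest
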